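import Mathlib

/-!
# Torsion-free tensor products of an ideal with its canonical dual

`R` is a one-dimensional Noetherian local domain of minimal multiplicity (in the equivalent form
`𝔪 ^ 2 = x 𝔪` for some `x ∈ 𝔪`), `ω` a canonical module, `I` a nonzero ideal such that
`I ⊗ Hom(I, ω)` is torsion-free.  Then `I ≅ R` or `I ≅ ω`.

Idea: embed `ω` as `W` in the field of fractions, let `J = W : I`, `e = length (R / xR)`,
`a`, `b` the minimal numbers of generators of `I`, `J`.  Duality of lengths gives `a + b ≥ e`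
(because `𝔪 J ⊆ x (W : 𝔪 I)`), and torsion-freeness gives `a b = μ(I J) ≤ e`, with equality only
when `𝔪 I = x I` and `𝔪 J = x J`, which forces `e = 1`.  Otherwise `a b < a + b`.
-/

namespace Pool.Agent.Results.MP_9a1833_al.MinimalMultiplicity

open TensorProduct IsLocalRing

section Len

variable {R : Type*} [CommRing R] {V : Type*} [AddCommGroup V] [Module R V]

/-- Length of `B / (A ∩ B)`. -/
noncomputable def len (A B : Submodule R V) : ℕ∞ := Module.length R (B ⧸ A.comap B.subtype)

theorem len_add {A B C : Submodule R V} (hAB : A ≤ B) (hBC : B ≤ C) :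
    len A C = len A B + len B C := by
  have h1 : A.comap B.subtype ≤ (A.comap C.subtype).comap (Submodule.inclusion hBC) := by
    intro x hx
    simpa using hx
  have h2 : A.comap C.subtype ≤ B.comap C.subtype := Submodule.comap_mono hAB
  refine Module.length_eq_add_of_exact
    (Submodule.mapQ (A.comap B.subtype) (A.comap C.subtype) (Submodule.inclusion hBC) h1)
    (Submodule.factor h2) ?_ (Submodule.factor_surjective h2) ?_
  · rw [← LinearMap.ker_eq_bot, Submodule.ker_mapQ, ← le_bot_iff, Submodule.map_le_iff_le_comap,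
      Submodule.comap_bot, Submodule.ker_mkQ]
    intro x hx
    simpa using hx
  · intro x
    obtain ⟨c, rfl⟩ := Submodule.Quotient.mk_surjective _ x
    constructor
    · intro h
      have h3 : (c : V) ∈ B := by
        have : Submodule.factor h2 (Submodule.Quotient.mk c) = Submodule.Quotient.mk c := rfl
        rw [this, Submodule.Quotient.mk_eq_zero] at h
        simpa using h
      refine ⟨Submodule.Quotient.mk ⟨c, h3⟩, ?_⟩
      rfl
    · rintro ⟨y, hy⟩
      obtain ⟨b, rfl⟩ := Submodule.Quotient.mk_surjective _ y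
      have h4 : Submodule.mapQ (A.comap B.subtype) (A.comap C.subtype)
        (Submodule.inclusion hBC) h1 (Submodule.Quotient.mk b) =
          Submodule.Quotient.mk (Submodule.inclusion hBC b) := rfl
      rw [← hy, h4]
      have : Submodule.factor h2 (Submodule.Quotient.mk (Submodule.inclusion hBC b)) =
        Submodule.Quotient.mk (Submodule.inclusion hBC b) := rfl
      rw [this, Submodule.Quotient.mk_eq_zero]
      simp

theorem len_eq_zero {A B : Submodule R V} (hAB : A ≤ B) (h : len A B = 0) : A = B := by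
  apply le_antisymm hAB
  rw [len, Module.length_eq_zero_iff, Submodule.Quotient.subsingleton_iff] at h
  intro x hx
  have : (⟨x, hx⟩ : B) ∈ A.comap B.subtype := by rw [h]; trivial
  simpa using this

/-- The interval between `A` and `B` is the lattice of submodules of the quotient. -/
noncomputable def lenIso {A B : Submodule R V} (hAB : A ≤ B) :
    Submodule R (B ⧸ A.comap B.subtype) ≃o Set.Icc A B where
  toFun P := ⟨(P.comap (Submodule.mkQ _)).map B.subtype, by
    constructor
    · intro x hx
      refine ⟨⟨x, hAB hx⟩, ?_, rfl⟩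
      have : (Submodule.mkQ (A.comap B.subtype)) ⟨x, hAB hx⟩ = 0 := by
        rw [Submodule.mkQ_apply, Submodule.Quotient.mk_eq_zero]
        simpa using hx
      simp only [Submodule.comap_coe, Set.mem_preimage, SetLike.mem_coe]
      rw [this]
      exact P.zero_mem
    · exact Submodule.map_subtype_le _ _⟩
  invFun Q := ((Q : Submodule R V).comap B.subtype).map (Submodule.mkQ _)
  left_inv P := by
    simp only
    rw [Submodule.comap_map_eq_of_injective B.injective_subtype,
      Submodule.map_comap_eq_of_surjective (Submodule.mkQ_surjective _)]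
  right_inv Q := by
    obtain ⟨Q, hQ1, hQ2⟩ := Q
    apply Subtype.ext
    simp only
    rw [Submodule.comap_map_mkQ, sup_eq_right.mpr (Submodule.comap_mono hQ1),
      Submodule.map_comap_subtype, inf_eq_right.mpr hQ2]
  map_rel_iff' := by
    intro P Q
    simp only [Equiv.coe_fn_mk, ← Subtype.coe_le_coe]
    rw [Submodule.map_le_map_iff_of_injective B.injective_subtype,
      Submodule.comap_le_comap_iff_of_surjective (Submodule.mkQ_surjective _)]

theorem len_eq_krullDim {A B : Submodule R V} (hAB : A ≤ B) :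
    (len A B : WithBot ℕ∞) = Order.krullDim (Set.Icc A B) := by
  rw [len, Module.coe_length]
  exact Order.krullDim_eq_of_orderIso (lenIso hAB)

end Len

section Frac

variable {R : Type*} [CommRing R] [IsDomain R] {K : Type*} [Field K] [Algebra R K]
  [IsFractionRing R K]

/-- The submodule `cA`. -/
noncomputable def sc (c : K) (A : Submodule R K) : Submodule R K := Submodule.span R {c} * A

omit [IsDomain R] [IsFractionRing R K]

theorem mem_sc {c : K} (hc : c ≠ 0) {A : Submodule R K} {x : K} : x ∈ sc c A ↔ c⁻¹ * x ∈ A := by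
  unfold sc
  rw [Submodule.mem_span_singleton_mul]
  constructor
  · rintro ⟨y, hy, rfl⟩
    simpa [hc] using hy
  · intro h
    exact ⟨c⁻¹ * x, h, by simp [hc]⟩

theorem mul_mem_sc {c : K} {A : Submodule R K} {x : K} (hx : x ∈ A) : c * x ∈ sc c A :=
  Submodule.mem_span_singleton_mul.mpr ⟨x, hx, rfl⟩

theorem sc_mono {c : K} {A B : Submodule R K} (h : A ≤ B) : sc c A ≤ sc c B :=
  mul_le_mul' le_rfl h

theorem sc_sc (c d : K) (A : Submodule R K) : sc c (sc d A) = sc (c * d) A := by
  unfold sc
  rw [← mul_assoc, Submodule.span_mul_span, Set.singleton_mul_singleton]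

theorem sc_one (A : Submodule R K) : sc 1 A = A := by
  ext x
  rw [mem_sc one_ne_zero]
  simp

theorem sc_mul (c : K) (A B : Submodule R K) : sc c (A * B) = sc c A * B := by
  unfold sc
  rw [mul_assoc]

theorem sc_le_iff {c : K} (hc : c ≠ 0) {A B : Submodule R K} : sc c A ≤ sc c B ↔ A ≤ B := by
  constructor
  · intro h x hx
    have h2 := h (mul_mem_sc (c := c) hx)
    rw [mem_sc hc] at h2
    simpa [hc] using h2
  · exact sc_mono

theorem len_sc {c : K} (hc : c ≠ 0) {A B : Submodule R K} (hAB : A ≤ B) :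
    len (sc c A) (sc c B) = len A B := by
  apply WithBot.coe_injective
  rw [len_eq_krullDim hAB, len_eq_krullDim (sc_mono hAB)]
  symm
  refine Order.krullDim_eq_of_orderIso ?_
  refine
    { toFun := fun P => ⟨sc c P, sc_mono P.2.1, sc_mono P.2.2⟩
      invFun := fun P => ⟨sc c⁻¹ P, ?_, ?_⟩
      left_inv := ?_
      right_inv := ?_
      map_rel_iff' := ?_ }
  · rw [← sc_le_iff hc, sc_sc, mul_inv_cancel₀ hc, sc_one]
    exact P.2.1
  · rw [← sc_le_iff hc, sc_sc, mul_inv_cancel₀ hc, sc_one]
    exact P.2.2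
  · intro P
    apply Subtype.ext
    simp only [sc_sc, inv_mul_cancel₀ hc, sc_one]
  · intro P
    apply Subtype.ext
    simp only [sc_sc, mul_inv_cancel₀ hc, sc_one]
  · intro P Q
    simp only [Equiv.coe_fn_mk, ← Subtype.coe_le_coe]
    exact sc_le_iff hc

/-- Nonzero finitely generated submodules of the field of fractions. -/
def Fr (A : Submodule R K) : Prop := A ≠ ⊥ ∧ A.FG

theorem Fr.exists_mem {A : Submodule R K} (hA : Fr A) : ∃ a ∈ A, a ≠ 0 :=
  Submodule.exists_mem_ne_zero_of_ne_bot hA.1

theorem Fr.mul {A B : Submodule R K} (hA : Fr A) (hB : Fr B) : Fr (A * B) := by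
  refine ⟨?_, hA.2.mul hB.2⟩
  obtain ⟨a, ha, ha0⟩ := hA.exists_mem
  obtain ⟨b, hb, hb0⟩ := hB.exists_mem
  intro h
  have := Submodule.mul_mem_mul ha hb
  rw [h, Submodule.mem_bot] at this
  exact mul_ne_zero ha0 hb0 this

theorem Fr.span {c : K} (hc : c ≠ 0) : Fr (Submodule.span R {c}) := by
  refine ⟨?_, Submodule.fg_span_singleton c⟩
  rw [Ne, Submodule.span_singleton_eq_bot]
  exact hc

theorem Fr.sc {c : K} (hc : c ≠ 0) {A : Submodule R K} (hA : Fr A) : Fr (sc c A) :=
  (Fr.span hc).mul hA

variable [IsDomain R] [IsFractionRing R K]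

theorem Fr.exists_den {A : Submodule R K} (hA : Fr A) : ∃ d : R, d ≠ 0 ∧
    ∀ a ∈ A, ∃ r : R, algebraMap R K r = algebraMap R K d * a := by
  obtain ⟨d, hd, h⟩ := FractionalIdeal.isFractional_of_fg (S := nonZeroDivisors R) hA.2
  refine ⟨d, nonZeroDivisors.ne_zero hd, fun a ha => ?_⟩
  obtain ⟨r, hr⟩ := h a ha
  exact ⟨r, by rw [hr, Algebra.smul_def]⟩

theorem div_eq_sc {A : Submodule R K} {c : K} (hc : c ≠ 0) :
    A / Submodule.span R {c} = sc c⁻¹ A := by
  ext x
  rw [mem_sc (inv_ne_zero hc), inv_inv, Submodule.mem_div_iff_forall_mul_mem]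
  constructor
  · intro h
    rw [mul_comm]
    exact h c (Submodule.mem_span_singleton_self c)
  · intro h y hy
    obtain ⟨r, rfl⟩ := Submodule.mem_span_singleton.mp hy
    rw [mul_smul_comm]
    refine A.smul_mem _ ?_
    rwa [mul_comm]

theorem div_anti {W A B : Submodule R K} (h : A ≤ B) : W / B ≤ W / A := by
  intro x hx
  rw [Submodule.mem_div_iff_forall_mul_mem] at hx ⊢
  exact fun y hy => hx y (h hy)

theorem Fr.div [IsNoetherianRing R] {W A : Submodule R K} (hW : Fr W) (hA : Fr A) :
    Fr (W / A) := by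
  constructor
  · obtain ⟨d, hd, hdA⟩ := hA.exists_den
    obtain ⟨w, hw, hw0⟩ := hW.exists_mem
    intro h
    have : algebraMap R K d * w ∈ W / A := by
      rw [Submodule.mem_div_iff_forall_mul_mem]
      intro y hy
      obtain ⟨r, hr⟩ := hdA y hy
      have : algebraMap R K d * w * y = r • w := by
        rw [Algebra.smul_def, hr]; ring
      rw [this]
      exact W.smul_mem _ hw
    rw [h, Submodule.mem_bot] at this
    refine mul_ne_zero ?_ hw0 this
    exact (map_ne_zero_iff _ (IsFractionRing.injective R K)).mpr hd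
  · obtain ⟨a, ha, ha0⟩ := hA.exists_mem
    have h1 : W / A ≤ W / Submodule.span R {a} := div_anti (by
      rw [Submodule.span_singleton_le_iff_mem]; exact ha)
    rw [div_eq_sc ha0] at h1
    exact (hW.sc (inv_ne_zero ha0)).2.of_le h1

theorem finite_quot [IsNoetherianRing R] [Ring.KrullDimLE 1 R] {I : Ideal R} (hI : I ≠ ⊥) :
    Module.length R (R ⧸ I) ≠ ⊤ := by
  have h0 : Ring.KrullDimLE 0 (R ⧸ I) := by
    refine Ring.krullDimLE_zero_iff.mpr fun J hJ => ?_
    have hp : (J.comap (Ideal.Quotient.mk I)).IsPrime := Ideal.IsPrime.comap _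
    have hne : J.comap (Ideal.Quotient.mk I) ≠ ⊥ := by
      intro h
      apply hI
      rw [← le_bot_iff, ← h]
      intro x hx
      rw [Ideal.mem_comap, Ideal.Quotient.eq_zero_iff_mem.mpr hx]
      exact J.zero_mem
    have hm := hp.isMaximal_of_ne_bot hne
    have := Ideal.map_eq_top_or_isMaximal_of_surjective (Ideal.Quotient.mk I)
      Ideal.Quotient.mk_surjective hm
    rw [Ideal.map_comap_of_surjective _ Ideal.Quotient.mk_surjective] at this
    rcases this with h | h
    · exact absurd h hJ.ne_top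
    · exact h
  have h1 : IsArtinianRing (R ⧸ I) := IsNoetherianRing.isArtinianRing_of_krullDimLE_zero
  have h2 : Module.length (R ⧸ I) (R ⧸ I) ≠ ⊤ := Module.length_ne_top
  rwa [Module.length_eq_of_surjective (S := R) (R := R ⧸ I) (M := R ⧸ I)
    Ideal.Quotient.mk_surjective]

theorem finite_len_one [IsNoetherianRing R] [Ring.KrullDimLE 1 R] {A : Submodule R K}
    (hA : A ≠ ⊥) (h1 : A ≤ 1) : len A 1 ≠ ⊤ := by
  let I : Ideal R := A.comap (Algebra.linearMap R K)
  have hI : I ≠ ⊥ := by
    obtain ⟨a, ha, ha0⟩ := Submodule.exists_mem_ne_zero_of_ne_bot hA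
    obtain ⟨r, hr⟩ := Submodule.mem_one.mp (h1 ha)
    intro h
    have : r ∈ I := by
      change (Algebra.linearMap R K) r ∈ A
      rw [Algebra.linearMap_apply, hr]
      exact ha
    rw [h, Submodule.mem_bot] at this
    apply ha0
    rw [← hr, this, map_zero]
  have h2 := finite_quot hI
  have h3 : len A (1 : Submodule R K) ≤ Module.length R (R ⧸ I) := by
    let f : R →ₗ[R] (1 : Submodule R K) :=
      (Algebra.linearMap R K).codRestrict 1 (fun r => Submodule.mem_one.mpr ⟨r, rfl⟩)
    refine Module.length_le_of_surjective (Submodule.mapQ I (A.comap (1 : Submodule R K).subtype)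
      f ?_) ?_
    · intro x hx
      exact hx
    · intro y
      obtain ⟨⟨b, hb⟩, rfl⟩ := Submodule.Quotient.mk_surjective _ y
      obtain ⟨r, hr⟩ := Submodule.mem_one.mp hb
      refine ⟨Submodule.Quotient.mk r, ?_⟩
      rw [Submodule.mapQ_apply]
      congr 1
      exact Subtype.ext hr
  exact ne_top_of_le_ne_top h2 h3

theorem finite_len [IsNoetherianRing R] [Ring.KrullDimLE 1 R] {A B : Submodule R K}
    (hA : Fr A) (hB : Fr B) (hAB : A ≤ B) : len A B ≠ ⊤ := by
  obtain ⟨d, hd, hdB⟩ := hB.exists_den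
  have hd' : algebraMap R K d ≠ 0 :=
    (map_ne_zero_iff _ (IsFractionRing.injective R K)).mpr hd
  have h1 : sc (algebraMap R K d) B ≤ 1 := by
    intro x hx
    rw [mem_sc hd'] at hx
    obtain ⟨r, hr⟩ := hdB _ hx
    rw [Submodule.mem_one]
    refine ⟨r, ?_⟩
    rw [hr]
    field_simp
  rw [← len_sc hd' hAB]
  have h2 := finite_len_one (hA.sc hd').1 ((sc_mono hAB).trans h1)
  rw [len_add (sc_mono hAB) h1] at h2
  exact ne_top_of_le_ne_top h2 le_self_add

/-- For a nonzero element `x` of `R` the length of `F / xF` does not depend on `F`. -/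
theorem len_sc_self [IsNoetherianRing R] [Ring.KrullDimLE 1 R] {x : R} (hx : x ≠ 0)
    {F : Submodule R K} (hF : Fr F) :
    len (sc (algebraMap R K x) F) F = len (sc (algebraMap R K x) 1) (1 : Submodule R K) := by
  have hx' : algebraMap R K x ≠ 0 :=
    (map_ne_zero_iff _ (IsFractionRing.injective R K)).mpr hx
  obtain ⟨d, hd, hdB⟩ := hF.exists_den
  have hd' : algebraMap R K d ≠ 0 :=
    (map_ne_zero_iff _ (IsFractionRing.injective R K)).mpr hd
  have sub : ∀ G : Submodule R K, sc (algebraMap R K x) G ≤ G := by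
    intro G y hy
    rw [mem_sc hx'] at hy
    have := G.smul_mem x hy
    rw [Algebra.smul_def, ← mul_assoc, mul_inv_cancel₀ hx', one_mul] at this
    exact this
  have h1 : sc (algebraMap R K d) F ≤ 1 := by
    intro x hx
    rw [mem_sc hd'] at hx
    obtain ⟨r, hr⟩ := hdB _ hx
    rw [Submodule.mem_one]
    refine ⟨r, ?_⟩
    rw [hr]
    field_simp
  have h2 : len (sc (algebraMap R K x) F) F =
      len (sc (algebraMap R K x) (sc (algebraMap R K d) F)) (sc (algebraMap R K d) F) := by
    rw [← len_sc hd' (sub F), sc_sc, sc_sc, mul_comm]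
  rw [h2]
  set G := sc (algebraMap R K d) F with hG
  have hG1 : Fr G := hF.sc hd'
  have e1 := len_add (sub G) h1
  have e2 := len_add (sc_mono (c := algebraMap R K x) h1) (sub 1)
  rw [len_sc hx' h1] at e2
  rw [e1, add_comm] at e2
  exact (ENat.add_right_injective_of_ne_top (finite_len_one hG1.1 h1)) e2

/-- Duality of lengths. -/
theorem len_dual [IsNoetherianRing R] {W : Submodule R K}
    (hW : Fr W) (hr : ∀ A : Submodule R K, Fr A → W / (W / A) = A)
    {A B : Submodule R K} (hA : Fr A) (hB : Fr B) (hAB : A ≤ B) :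
    len (W / B) (W / A) = len A B := by
  have key : ∀ C : Submodule R K, C ∈ Set.Icc A B → Fr C := fun C hC =>
    ⟨fun h => hA.1 (le_bot_iff.mp (h ▸ hC.1)), hB.2.of_le hC.2⟩
  have key2 : ∀ C : Submodule R K, C ∈ Set.Icc (W / B) (W / A) → Fr C := fun C hC =>
    ⟨fun h => (hW.div hB).1 (le_bot_iff.mp (h ▸ hC.1)), (hW.div hA).2.of_le hC.2⟩
  apply WithBot.coe_injective
  rw [len_eq_krullDim hAB, len_eq_krullDim (div_anti hAB), ← Order.krullDim_orderDual]
  refine Order.krullDim_eq_of_orderIso ?_
  refine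
    { toFun := fun P => ⟨W / (OrderDual.ofDual P).1, ?_, ?_⟩
      invFun := fun P => OrderDual.toDual ⟨W / P.1, div_anti P.2.2, div_anti P.2.1⟩
      left_inv := ?_
      right_inv := ?_
      map_rel_iff' := ?_ }
  · exact (hr A hA).symm.le.trans (div_anti (OrderDual.ofDual P).2.2)
  · exact (div_anti (OrderDual.ofDual P).2.1).trans (hr B hB).le
  · intro P
    refine OrderDual.ofDual_inj.mp (Subtype.ext ?_)
    exact hr _ (key2 _ (OrderDual.ofDual P).2)
  · intro P
    exact Subtype.ext (hr _ (key _ P.2))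
  · intro P Q
    change W / (OrderDual.ofDual P).1 ≤ W / (OrderDual.ofDual Q).1 ↔
      (OrderDual.ofDual Q).1 ≤ (OrderDual.ofDual P).1
    constructor
    · intro h
      have := div_anti (W := W) h
      rwa [hr _ (key2 _ (OrderDual.ofDual P).2), hr _ (key2 _ (OrderDual.ofDual Q).2)] at this
    · exact div_anti

theorem div_mul_eq (W I J : Submodule R K) : W / (I * J) = (W / J) / I := by
  apply le_antisymm
  · rw [Submodule.le_div_iff_mul_le, Submodule.le_div_iff_mul_le, mul_assoc,
      ← Submodule.le_div_iff_mul_le]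
  · rw [Submodule.le_div_iff_mul_le, ← mul_assoc, ← Submodule.le_div_iff_mul_le,
      ← Submodule.le_div_iff_mul_le]

theorem core [IsNoetherianRing R] [Ring.KrullDimLE 1 R] {m W I : Submodule R K} {x : R}
    (hx : x ≠ 0) (hm1 : m ≤ 1) (hxm : algebraMap R K x ∈ m)
    (hmm : m * m = sc (algebraMap R K x) m)
    (he : len (sc (algebraMap R K x) 1) (1 : Submodule R K) ≠ 0)
    (hW : Fr W) (hr : ∀ A : Submodule R K, Fr A → W / (W / A) = A) (hI : Fr I)
    (hprod : len (m * (I * (W / I))) (I * (W / I)) = len (m * I) I * len (m * (W / I)) (W / I)) :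
    len (m * I) I = 1 ∨ len (m * (W / I)) (W / I) = 1 := by
  have hx' : algebraMap R K x ≠ 0 :=
    (map_ne_zero_iff _ (IsFractionRing.injective R K)).mpr hx
  have hm : Fr m := ⟨fun h => hx' (by rwa [h, Submodule.mem_bot] at hxm), by
    refine Submodule.FG.of_le (T := 1) ?_ hm1
    rw [Submodule.one_eq_span]
    exact Submodule.fg_span_singleton _⟩
  have hsub : ∀ F : Submodule R K, sc (algebraMap R K x) F ≤ m * F := fun F =>
    mul_le_mul' ((Submodule.span_singleton_le_iff_mem _ _).mpr hxm) le_rfl
  have hmF : ∀ F : Submodule R K, m * F ≤ F := fun F =>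
    (mul_le_mul' hm1 le_rfl).trans (one_mul F).le
  set J := W / I with hJdef
  have hJ : Fr J := hW.div hI
  have hIJ : Fr (I * J) := hI.mul hJ
  have hWJ : W / J = I := hr I hI
  set e := len (sc (algebraMap R K x) 1) (1 : Submodule R K) with hedef
  have E : ∀ F : Submodule R K, Fr F →
      e = len (sc (algebraMap R K x) F) (m * F) + len (m * F) F := by
    intro F hF
    rw [← len_add (hsub F) (hmF F), len_sc_self hx hF]
  have hJIW : J * I ≤ W := Submodule.le_div_iff_mul_le.mp le_rfl
  have hxx : ∀ F : Submodule R K, sc (algebraMap R K x)⁻¹ (sc (algebraMap R K x) F) = F := by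
    intro F
    rw [sc_sc, inv_mul_cancel₀ hx', sc_one]
  have hxx' : ∀ F : Submodule R K, sc (algebraMap R K x) (sc (algebraMap R K x)⁻¹ F) = F := by
    intro F
    rw [sc_sc, mul_inv_cancel₀ hx', sc_one]
  -- first inequality
  have hA1 : m * J ≤ sc (algebraMap R K x) (W / (m * I)) := by
    rw [← sc_le_iff (inv_ne_zero hx'), hxx, Submodule.le_div_iff_mul_le]
    have : sc (algebraMap R K x)⁻¹ (m * J) * (m * I) = m * (J * I) := by
      rw [← sc_mul]
      have h2 : m * J * (m * I) = m * m * (J * I) := by ring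
      rw [h2, hmm, ← sc_mul, hxx]
    rw [this]
    exact (hmF _).trans hJIW
  have hA2 : len (sc (algebraMap R K x) J) (m * J) ≤ len (m * I) I := by
    rw [← len_dual hW hr (hm.mul hI) hI (hmF I), ← len_sc hx' (div_anti (hmF I)),
      len_add (hsub J) hA1]
    exact le_self_add
  have hA3 : e ≤ len (m * I) I + len (m * J) J := by
    rw [E J hJ]
    gcongr
  have hfin : ∀ F : Submodule R K, Fr F → len (m * F) F ≠ ⊤ := fun F hF =>
    finite_len (hm.mul hF) hF (hmF F)
  have hefin : e ≠ ⊤ := by
    rw [hedef, ← len_sc_self hx hI]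
    exact finite_len (hI.sc hx') hI ((hsub I).trans (hmF I))
  have hne : ∀ F : Submodule R K, Fr F → len (m * F) F ≠ 0 := by
    intro F hF h
    have h1 : m * F = F := len_eq_zero (hmF F) h
    have h2 : sc (algebraMap R K x) F = F := by
      have : m * m * F = F := by rw [mul_assoc, h1, h1]
      rwa [hmm, ← sc_mul, h1] at this
    apply he
    have h3 : len (sc (algebraMap R K x) F) F = 0 := by
      rw [h2, len, Module.length_eq_zero_iff, Submodule.Quotient.subsingleton_iff]
      exact Submodule.comap_subtype_self F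
    rw [← h3, len_sc_self hx hF]
  by_cases hc : len (sc (algebraMap R K x) (I * J)) (m * (I * J)) = 0
  · have h1 : sc (algebraMap R K x) (I * J) = m * (I * J) := len_eq_zero (hsub _) hc
    have h2 : sc (algebraMap R K x)⁻¹ m * (I * J) = I * J := by
      rw [← sc_mul, ← h1, hxx]
    have h3 : sc (algebraMap R K x)⁻¹ m * (W / (I * J)) ≤ W / (I * J) := by
      rw [Submodule.le_div_iff_mul_le]
      have : sc (algebraMap R K x)⁻¹ m * (W / (I * J)) * (I * J) =
        (W / (I * J)) * (sc (algebraMap R K x)⁻¹ m * (I * J)) := by ring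
      rw [this, h2]
      exact Submodule.le_div_iff_mul_le.mp le_rfl
    have h4 : ∀ F : Submodule R K, W / (I * J) = F / F → m * F = sc (algebraMap R K x) F := by
      intro F hF
      rw [hF] at h3
      apply le_antisymm _ (hsub F)
      rw [← sc_le_iff (inv_ne_zero hx'), hxx, sc_mul]
      have h5 : sc (algebraMap R K x)⁻¹ m ≤ F / F := by
        refine le_trans ?_ h3
        intro y hy
        have h6 : (1 : K) ∈ F / F := Submodule.one_mem_div.mpr le_rfl
        have := Submodule.mul_mem_mul hy h6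
        rwa [mul_one] at this
      exact Submodule.le_div_iff_mul_le.mp h5
    have h5 : m * I = sc (algebraMap R K x) I := h4 I (by rw [div_mul_eq, hWJ])
    have h6 : m * J = sc (algebraMap R K x) J := h4 J (by rw [mul_comm, div_mul_eq])
    have h7 : m * (I * J) = sc (algebraMap R K x) (I * J) := h1.symm
    rw [h7, h5, h6, len_sc_self hx hI, len_sc_self hx hJ, len_sc_self hx hIJ] at hprod
    left
    rw [h5, len_sc_self hx hI]
    obtain ⟨n, hn⟩ := ENat.ne_top_iff_exists.mp hefin
    rw [← hedef] at hprod ⊢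
    rw [← hn] at hprod he ⊢
    norm_cast at hprod he ⊢
    have : n * (n - 1) = 0 := by
      rw [Nat.mul_sub, mul_one, ← hprod, Nat.sub_self]
    rcases Nat.mul_eq_zero.mp this with h | h
    · exact absurd h he
    · omega
  · have hB := E (I * J) hIJ
    rw [hprod] at hB
    have ha := hne I hI
    have hb := hne J hJ
    obtain ⟨a, ha'⟩ := ENat.ne_top_iff_exists.mp (hfin I hI)
    obtain ⟨b, hb'⟩ := ENat.ne_top_iff_exists.mp (hfin J hJ)
    obtain ⟨n, hn⟩ := ENat.ne_top_iff_exists.mp hefin
    have hc1 : 1 ≤ len (sc (algebraMap R K x) (I * J)) (m * (I * J)) :=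
      Order.one_le_iff_ne_zero.mpr hc
    have hB' : 1 + len (m * I) I * len (m * J) J ≤ e := by
      rw [hB]
      gcongr
    rw [← ha', ← hb']
    rw [← ha', ← hb', ← hn] at hB' hA3
    rw [← ha'] at ha
    rw [← hb'] at hb
    norm_cast at hB' hA3 ha hb ⊢
    by_contra hcon
    push Not at hcon
    have ha2 : 2 ≤ a := by omega
    have hb2 : 2 ≤ b := by omega
    obtain ⟨a', rfl⟩ := Nat.exists_eq_add_of_le ha2
    obtain ⟨b', rfl⟩ := Nat.exists_eq_add_of_le hb2
    nlinarith

end Frac

section Mu

variable {R : Type*} [CommRing R] [IsLocalRing R]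

/-- Minimal number of generators. -/
noncomputable def mu (R : Type*) [CommRing R] [IsLocalRing R] (N : Type*) [AddCommGroup N]
    [Module R N] : ℕ := Module.finrank (ResidueField R) (ResidueField R ⊗[R] N)

theorem mu_tensor (M N : Type*) [AddCommGroup M] [Module R M] [AddCommGroup N] [Module R N] :
    mu R (M ⊗[R] N) = mu R M * mu R N := by
  unfold mu
  rw [(AlgebraTensorModule.distribBaseChange R (ResidueField R) M N).finrank_eq,
    Module.finrank_tensorProduct]

theorem mu_congr {M N : Type*} [AddCommGroup M] [Module R M] [AddCommGroup N] [Module R N]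
    (e : M ≃ₗ[R] N) : mu R M = mu R N :=
  (e.baseChange R (ResidueField R) M N).finrank_eq

theorem mu_length (N : Type*) [AddCommGroup N] [Module R N] [Module.Finite R N] :
    (mu R N : ℕ∞) = Module.length R (N ⧸ (maximalIdeal R • ⊤ : Submodule R N)) := by
  have e : (ResidueField R ⊗[R] N) ≃ₗ[R] N ⧸ (maximalIdeal R • ⊤ : Submodule R N) :=
    quotTensorEquivQuotSMul N (maximalIdeal R)
  rw [← e.length_eq, Module.length_eq_of_surjective (R := ResidueField R) residue_surjective,
    Module.length_eq_finrank]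
  rfl

theorem mu_eq_one {M : Type*} [AddCommGroup M] [Module R M] {F : Submodule R M}
    (hF : F.FG) (h : mu R F = 1) : ∃ c, c ≠ 0 ∧ F = Submodule.span R {c} := by
  have h1 : F.spanFinrank = 1 := by
    rw [← h, ← TensorProduct.spanFinrank_top_eq_of_residueField F hF, mu,
      Module.finrank_eq_spanFinrank_of_free]
  rw [Submodule.spanFinrank_eq_one_iff] at h1
  obtain ⟨⟨c, hc⟩, hne⟩ := h1
  refine ⟨c, ?_, hc⟩
  rintro rfl
  apply hne
  rw [hc]
  simp

end Mu

section FracMu

variable {R : Type*} [CommRing R] [IsDomain R] [IsLocalRing R] {K : Type*} [Field K] [Algebra R K]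
  [IsFractionRing R K]

/-- The maximal ideal inside the field of fractions. -/
noncomputable def mK (R K : Type*) [CommRing R] [IsLocalRing R] [Field K] [Algebra R K] :
    Submodule R K := Submodule.map (Algebra.linearMap R K) (maximalIdeal R)

theorem mK_comap (F : Submodule R K) :
    (mK R K * F).comap F.subtype = (maximalIdeal R • ⊤ : Submodule R F) := by
  apply le_antisymm
  · intro y hy
    have h1 : (y : K) ∈ mK R K * F := hy
    have h2 : mK R K * F ≤ (maximalIdeal R • ⊤ : Submodule R F).map F.subtype := by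
      rw [Submodule.mul_le]
      rintro _ ⟨r, hr, rfl⟩ z hz
      refine ⟨r • ⟨z, hz⟩, Submodule.smul_mem_smul hr trivial, ?_⟩
      rw [map_smul, Algebra.smul_def]
      rfl
    obtain ⟨z, hz, hzy⟩ := h2 h1
    have : z = y := Subtype.ext hzy
    rwa [← this]
  · rw [Submodule.smul_le]
    intro r hr z _
    change ((r • z : F) : K) ∈ mK R K * F
    rw [Submodule.coe_smul, Algebra.smul_def]
    exact Submodule.mul_mem_mul ⟨r, hr, rfl⟩ z.2

theorem mu_len {F : Submodule R K} (hF : F.FG) : (mu R F : ℕ∞) = len (mK R K * F) F := by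
  have : Module.Finite R F := Module.Finite.iff_fg.mpr hF
  rw [mu_length, len, mK_comap]

/-- Kernel of multiplication is torsion. -/
theorem tensor_equiv {I J : Submodule R K} (hI : Fr I)
    (ht : ∀ (r : R) (t : I ⊗[R] J), r ≠ 0 → r • t = 0 → t = 0) :
    Nonempty ((I ⊗[R] J) ≃ₗ[R] (I * J : Submodule R K)) := by
  obtain ⟨y₀, hy₀, hne⟩ := hI.exists_mem
  let f : (I ⊗[R] J) →ₗ[R] K := Submodule.mulMap I J
  have hrange : LinearMap.range f = I * J := Submodule.mulMap_range I J
  have key : ∀ t : I ⊗[R] J, ∃ (s : R) (c : J), s ≠ 0 ∧ s • t = (⟨y₀, hy₀⟩ : I) ⊗ₜ[R] c := by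
    intro t
    induction t with
    | zero => exact ⟨1, 0, one_ne_zero, by simp⟩
    | tmul y c =>
      obtain ⟨p, q, hq, hpq⟩ := IsFractionRing.div_surjective (A := R) ((y : K) / y₀)
      have hq0 : q ≠ 0 := nonZeroDivisors.ne_zero hq
      have hq' : algebraMap R K q ≠ 0 :=
        (map_ne_zero_iff _ (IsFractionRing.injective R K)).mpr hq0
      refine ⟨q, p • c, hq0, ?_⟩
      have h1 : q • y = p • (⟨y₀, hy₀⟩ : I) := by
        apply Subtype.ext
        rw [Submodule.coe_smul, Submodule.coe_smul, Algebra.smul_def, Algebra.smul_def]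
        field_simp at hpq
        rw [← hpq]
      rw [TensorProduct.smul_tmul', h1, TensorProduct.smul_tmul]
    | add t₁ t₂ h₁ h₂ =>
      obtain ⟨s₁, c₁, hs₁, e₁⟩ := h₁
      obtain ⟨s₂, c₂, hs₂, e₂⟩ := h₂
      refine ⟨s₁ * s₂, s₂ • c₁ + s₁ • c₂, mul_ne_zero hs₁ hs₂, ?_⟩
      rw [smul_add, TensorProduct.tmul_add, TensorProduct.tmul_smul, TensorProduct.tmul_smul,
        ← e₁, ← e₂, smul_smul, smul_smul, mul_comm s₂ s₁]
  have hinj : Function.Injective f := by
    suffices H : ∀ t : I ⊗[R] J, f t = 0 → t = 0 by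
      intro t₁ t₂ h
      have h2 : f (t₁ - t₂) = 0 := by rw [map_sub, h, sub_self]
      exact sub_eq_zero.mp (H _ h2)
    intro t hft
    obtain ⟨s, c, hs, hsc⟩ := key t
    have h1 : f (s • t) = y₀ * (c : K) := by
      rw [hsc]
      exact Submodule.mulMap_tmul I J _ _
    rw [map_smul, hft, smul_zero] at h1
    have h2 : (c : K) = 0 := by
      rcases mul_eq_zero.mp h1.symm with h | h
      · exact absurd h hne
      · exact h
    have h3 : c = 0 := Subtype.ext h2
    rw [h3, TensorProduct.tmul_zero] at hsc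
    exact ht s t hs hsc
  exact ⟨(LinearEquiv.ofInjective f hinj).trans (LinearEquiv.ofEq _ _ hrange)⟩

end FracMu


section Canonical

universe u v

/-- `N` is torsion-free over `R`: `r x ≠ 0` whenever `r ≠ 0` and `x ≠ 0`. -/
def TorsionFree (R : Type*) [CommRing R] (N : Type*) [AddCommGroup N] [Module R N] : Prop :=
  ∀ (r : R) (x : N), r ≠ 0 → x ≠ 0 → r • x ≠ 0

/-- `ω` is a canonical module of the one-dimensional Noetherian local domain `R`:
`ω` is finitely generated and torsion-free, and for every nonzero ideal `I` the evaluation map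
`I → Hom(Hom(I, ω), ω)` is bijective. -/
structure IsCanonical (R : Type u) [CommRing R] (ω : Type v) [AddCommGroup ω] [Module R ω] :
    Prop where
  finite : Module.Finite R ω
  torsionFree : TorsionFree R ω
  bidual : ∀ I : Ideal R, I ≠ ⊥ →
    Function.Bijective (LinearMap.applyₗ : I →ₗ[R] (I →ₗ[R] ω) →ₗ[R] ω)

variable {R : Type u} [CommRing R] [IsDomain R] {ω : Type v} [AddCommGroup ω] [Module R ω]
  {K : Type*} [Field K] [Algebra R K] [IsFractionRing R K]

omit [IsDomain R] in
theorem IsCanonical.exists_ne [Nontrivial R] (hω : IsCanonical R ω) : ∃ w : ω, w ≠ 0 := by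
  by_contra hcon
  push Not at hcon
  have hb := (hω.bidual ⊤ (by simp)).1
  have h1 : (⟨1, Submodule.mem_top⟩ : (⊤ : Ideal R)) ≠ 0 := by
    intro h
    exact one_ne_zero (congrArg Subtype.val h)
  apply h1
  apply hb
  ext φ
  exact (hcon _).trans (hcon _).symm

omit [IsDomain R] in
theorem IsCanonical.end_eq [Nontrivial R] (hω : IsCanonical R ω) (E : ω →ₗ[R] ω) :
    ∃ r : R, ∀ v, E v = r • v := by
  let Φ : ((⊤ : Ideal R) →ₗ[R] ω) →ₗ[R] ω :=
    { toFun := fun φ => E (φ ⟨1, Submodule.mem_top⟩)
      map_add' := by intros; simp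
      map_smul' := by intros; simp }
  obtain ⟨i, hi⟩ := (hω.bidual ⊤ (by simp)).2 Φ
  refine ⟨i, fun v => ?_⟩
  have h1 := LinearMap.congr_fun hi ((LinearMap.toSpanSingleton R ω v).comp
    (⊤ : Ideal R).subtype)
  simp [Φ] at h1
  exact h1.symm

theorem IsCanonical.exists_emb (hω : IsCanonical R ω) :
    ∃ ι : ω →ₗ[R] K, Function.Injective ι := by
  obtain ⟨w₀, hw₀⟩ := hω.exists_ne
  have h1 : (TensorProduct.mk R K ω 1) w₀ ≠ 0 := by
    rw [Ne, IsLocalizedModule.eq_zero_iff (nonZeroDivisors R)]
    rintro ⟨s, hs⟩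
    exact hω.torsionFree s w₀ (nonZeroDivisors.ne_zero s.2) hw₀ hs
  obtain ⟨g, hg⟩ := Module.Projective.exists_dual_ne_zero K h1
  let ι : ω →ₗ[R] K := (g.restrictScalars R).comp (TensorProduct.mk R K ω 1)
  have hι : ι w₀ ≠ 0 := hg
  have : Module.Finite R ω := hω.finite
  have hfr : Fr (LinearMap.range ι) := by
    constructor
    · intro h
      have : ι w₀ ∈ LinearMap.range ι := ⟨w₀, rfl⟩
      rw [h, Submodule.mem_bot] at this
      exact hι this
    · rw [LinearMap.range_eq_map]
      exact Submodule.FG.map _ Module.Finite.fg_top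
  obtain ⟨d, hd, hdr⟩ := hfr.exists_den
  have hd' : algebraMap R K d ≠ 0 :=
    (map_ne_zero_iff _ (IsFractionRing.injective R K)).mpr hd
  have h2 : ∀ v, ∃ r : R, algebraMap R K r = algebraMap R K d * ι v := fun v => hdr _ ⟨v, rfl⟩
  choose h hh using h2
  have hinj := IsFractionRing.injective R K
  let H : ω →ₗ[R] R :=
    { toFun := h
      map_add' := by
        intro a b
        apply hinj
        rw [map_add, hh, hh, hh, map_add, mul_add]
      map_smul' := by
        intro r a
        apply hinj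
        rw [smul_eq_mul, map_mul, hh, RingHom.id_apply, hh, map_smul, Algebra.smul_def]
        ring }
  obtain ⟨r, hr⟩ := hω.end_eq ((LinearMap.toSpanSingleton R ω w₀).comp H)
  refine ⟨ι, (injective_iff_map_eq_zero ι).mpr fun v hv => ?_⟩
  by_contra hv0
  have h3 : H v = 0 := by
    apply hinj
    rw [map_zero]
    change algebraMap R K (h v) = 0
    rw [hh, hv, mul_zero]
  have h4 : r = 0 := by
    by_contra hr0
    have := hr v
    simp only [LinearMap.comp_apply, h3, map_zero] at this
    exact hω.torsionFree r v hr0 hv0 this.symm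
  have h5 := hr w₀
  rw [h4, zero_smul] at h5
  simp only [LinearMap.comp_apply, LinearMap.toSpanSingleton_apply] at h5
  have h6 : H w₀ ≠ 0 := by
    intro h7
    have h8 : algebraMap R K (h w₀) = 0 := by
      change algebraMap R K (H w₀) = 0
      rw [h7, map_zero]
    rw [hh] at h8
    exact mul_ne_zero hd' hι h8
  exact hω.torsionFree _ _ h6 hw₀ h5

/-- Homomorphisms from an ideal to a submodule of the field of fractions. -/
theorem hom_equiv (I : Ideal R) (hI : I ≠ ⊥) (ι : ω →ₗ[R] K) (hι : Function.Injective ι) :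
    ∃ e : (LinearMap.range ι / Submodule.map (Algebra.linearMap R K) I : Submodule R K)
      ≃ₗ[R] (I →ₗ[R] ω), ∀ y (i : I), ι (e y i) = y * algebraMap R K i := by
  let W := LinearMap.range ι
  let eW : ω ≃ₗ[R] W := LinearEquiv.ofInjective ι hι
  let I' : Submodule R K := Submodule.map (Algebra.linearMap R K) I
  have hmem : ∀ (y : (W / I' : Submodule R K)) (i : I), (y : K) * algebraMap R K i ∈ W := by
    intro y i
    exact Submodule.mem_div_iff_forall_mul_mem.mp y.2 _ ⟨i, i.2, rfl⟩
  let F : (W / I' : Submodule R K) →ₗ[R] (I →ₗ[R] ω) :=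
    { toFun := fun y =>
        { toFun := fun i => eW.symm ⟨(y : K) * algebraMap R K i, hmem y i⟩
          map_add' := by
            intro i j
            rw [← map_add]
            congr 1
            apply Subtype.ext
            simp [mul_add]
          map_smul' := by
            intro r i
            rw [RingHom.id_apply, ← map_smul]
            congr 1
            apply Subtype.ext
            simp [Algebra.smul_def]
            ring }
      map_add' := by
        intro y z
        ext i
        simp only [LinearMap.coe_mk, AddHom.coe_mk, LinearMap.add_apply]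
        rw [← map_add]
        congr 1
        apply Subtype.ext
        simp [add_mul]
      map_smul' := by
        intro r y
        ext i
        simp only [LinearMap.coe_mk, AddHom.coe_mk, LinearMap.smul_apply, RingHom.id_apply]
        rw [← map_smul]
        congr 1
        apply Subtype.ext
        simp [Algebra.smul_def]
        ring }
  have hF : ∀ y (i : I), ι (F y i) = y * algebraMap R K i := by
    intro y i
    have h1 : (eW (F y i) : K) = ι (F y i) := rfl
    rw [← h1]
    have h2 : F y i = eW.symm ⟨(y : K) * algebraMap R K i, hmem y i⟩ := rfl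
    rw [h2, LinearEquiv.apply_symm_apply]
  obtain ⟨i₀, hi₀, hi₀ne⟩ := Submodule.exists_mem_ne_zero_of_ne_bot hI
  have hinj := IsFractionRing.injective R K
  have hi₀' : algebraMap R K i₀ ≠ 0 := (map_ne_zero_iff _ hinj).mpr hi₀ne
  have hbij : Function.Bijective F := by
    constructor
    · rw [injective_iff_map_eq_zero]
      intro y hy
      have h1 := hF y ⟨i₀, hi₀⟩
      rw [hy] at h1
      simp only [LinearMap.zero_apply, map_zero] at h1
      apply Subtype.ext
      rcases mul_eq_zero.mp h1.symm with h | h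
      · exact h
      · exact absurd h hi₀'
    · intro φ
      have h1 : ∀ i : I, ι (φ i) = ι (φ ⟨i₀, hi₀⟩) / algebraMap R K i₀ * algebraMap R K i := by
        intro i
        have h2 : (i₀ : R) • i = (i : R) • (⟨i₀, hi₀⟩ : I) := by
          apply Subtype.ext
          simp [mul_comm]
        have h3 : i₀ • ι (φ i) = (i : R) • ι (φ ⟨i₀, hi₀⟩) := by
          rw [← map_smul, ← map_smul, h2, map_smul, map_smul]
        rw [Algebra.smul_def, Algebra.smul_def] at h3
        field_simp
        rw [mul_comm, h3, mul_comm]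
      have h2 : ι (φ ⟨i₀, hi₀⟩) / algebraMap R K i₀ ∈ (W / I' : Submodule R K) := by
        rw [Submodule.mem_div_iff_forall_mul_mem]
        rintro _ ⟨i, hi, rfl⟩
        rw [Algebra.linearMap_apply, ← h1 ⟨i, hi⟩]
        exact ⟨_, rfl⟩
      refine ⟨⟨_, h2⟩, ?_⟩
      ext i
      apply hι
      rw [hF, h1 i]
  refine ⟨LinearEquiv.ofBijective F hbij, fun y i => ?_⟩
  exact hF y i

theorem div_sc (W A : Submodule R K) {c : K} (hc : c ≠ 0) : W / sc c A = sc c⁻¹ (W / A) := by
  unfold sc
  rw [div_mul_eq, div_eq_sc hc]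
  rfl

theorem bidual_ideal [IsNoetherianRing R] (hω : IsCanonical R ω) (I : Ideal R) (hI : I ≠ ⊥)
    (ι : ω →ₗ[R] K) (hι : Function.Injective ι) (hW : Fr (LinearMap.range ι)) :
    LinearMap.range ι / (LinearMap.range ι / Submodule.map (Algebra.linearMap R K) I) =
      Submodule.map (Algebra.linearMap R K) I := by
  have hinj := IsFractionRing.injective R K
  set W := LinearMap.range ι with hWdef
  set I' : Submodule R K := Submodule.map (Algebra.linearMap R K) I with hI'
  obtain ⟨e, he⟩ : ∃ e : (W / I' : Submodule R K) ≃ₗ[R] (I →ₗ[R] ω),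
    ∀ y (i : I), ι (e y i) = y * algebraMap R K i := hom_equiv I hI ι hι
  have hI'fr : Fr I' := by
    constructor
    · obtain ⟨i₀, hi₀, hi₀ne⟩ := Submodule.exists_mem_ne_zero_of_ne_bot hI
      intro h
      have h1 : algebraMap R K i₀ ∈ I' := ⟨i₀, hi₀, rfl⟩
      rw [h, Submodule.mem_bot] at h1
      exact (map_ne_zero_iff _ hinj).mpr hi₀ne h1
    · exact Submodule.FG.map _ (IsNoetherian.noetherian I)
  apply le_antisymm
  · intro q hq
    have hq1 : ∀ y ∈ W / I', q * y ∈ W := Submodule.mem_div_iff_forall_mul_mem.mp hq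
    let eW : ω ≃ₗ[R] W := LinearEquiv.ofInjective ι hι
    let Φ : (I →ₗ[R] ω) →ₗ[R] ω :=
      { toFun := fun φ => eW.symm ⟨q * (e.symm φ : K), hq1 _ (e.symm φ).2⟩
        map_add' := by
          intro φ ψ
          rw [← map_add]
          congr 1
          apply Subtype.ext
          simp [mul_add]
        map_smul' := by
          intro r φ
          rw [RingHom.id_apply, ← map_smul]
          congr 1
          apply Subtype.ext
          simp [Algebra.smul_def]
          ring }
    obtain ⟨i, hi⟩ := (hω.bidual I hI).2 Φ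
    obtain ⟨y, hy, hy0⟩ := (hW.div hI'fr).exists_mem
    have h1 := LinearMap.congr_fun hi (e ⟨y, hy⟩)
    have h2 : ι (e ⟨y, hy⟩ i) = ι (Φ (e ⟨y, hy⟩)) := congrArg ι h1
    have h3 : ι (Φ (e ⟨y, hy⟩)) = q * y := by
      have h4 : Φ (e ⟨y, hy⟩) = eW.symm ⟨q * (e.symm (e ⟨y, hy⟩) : K), hq1 _
        (e.symm (e ⟨y, hy⟩)).2⟩ := rfl
      have h5 : ∀ w, ι w = (eW w : K) := fun w => rfl
      rw [h4, h5, LinearEquiv.apply_symm_apply, LinearEquiv.symm_apply_apply]
    rw [h3, he] at h2
    have h6 : q = algebraMap R K i := by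
      have : y * algebraMap R K i = y * q := by rw [h2, mul_comm]
      exact (mul_left_cancel₀ hy0 this).symm
    rw [h6]
    exact ⟨i, i.2, rfl⟩
  · rw [Submodule.le_div_iff_mul_le, mul_comm]
    exact Submodule.le_div_iff_mul_le.mp le_rfl

theorem bidual_all [IsNoetherianRing R] (hω : IsCanonical R ω)
    (ι : ω →ₗ[R] K) (hι : Function.Injective ι) (hW : Fr (LinearMap.range ι))
    (A : Submodule R K) (hA : Fr A) :
    LinearMap.range ι / (LinearMap.range ι / A) = A := by
  have hinj := IsFractionRing.injective R K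
  obtain ⟨d, hd, hdA⟩ := hA.exists_den
  have hd' : algebraMap R K d ≠ 0 := (map_ne_zero_iff _ hinj).mpr hd
  let I : Ideal R := Submodule.comap (Algebra.linearMap R K) (sc (algebraMap R K d) A)
  have hI' : Submodule.map (Algebra.linearMap R K) I = sc (algebraMap R K d) A := by
    apply le_antisymm
    · exact Submodule.map_comap_le _ _
    · intro x hx
      rw [mem_sc hd'] at hx
      obtain ⟨r, hr⟩ := hdA _ hx
      have hr' : algebraMap R K r = x := by
        rw [hr]
        field_simp
      refine ⟨r, ?_, hr'⟩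
      change algebraMap R K r ∈ sc (algebraMap R K d) A
      rw [hr', mem_sc hd']
      exact hx
  have hI : I ≠ ⊥ := by
    intro h
    rw [h, Submodule.map_bot] at hI'
    exact (hA.sc hd').1 hI'.symm
  have h1 := bidual_ideal hω I hI ι hι hW
  rw [hI', div_sc _ _ hd', div_sc _ _ (inv_ne_zero hd'), inv_inv] at h1
  have h2 := congrArg (sc (algebraMap R K d)⁻¹) h1
  rwa [sc_sc, sc_sc, inv_mul_cancel₀ hd', sc_one, sc_one] at h2

omit [IsDomain R] [IsFractionRing R K] in
theorem sc_equiv (W : Submodule R K) {c : K} (hc : c ≠ 0) : Nonempty (sc c W ≃ₗ[R] W) := by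
  let f : W →ₗ[R] sc c W :=
    { toFun := fun w => ⟨c * w, mul_mem_sc w.2⟩
      map_add' := by
        intro a b
        apply Subtype.ext
        simp [mul_add]
      map_smul' := by
        intro r a
        apply Subtype.ext
        simp }
  refine ⟨(LinearEquiv.ofBijective f ⟨?_, ?_⟩).symm⟩
  · intro a b h
    have h1 : c * (a : K) = c * b := congrArg Subtype.val h
    exact Subtype.ext (mul_left_cancel₀ hc h1)
  · rintro ⟨y, hy⟩
    refine ⟨⟨c⁻¹ * y, (mem_sc hc).mp hy⟩, ?_⟩
    apply Subtype.ext
    change c * (c⁻¹ * y) = y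
    field_simp

end Canonical

section Final

universe u v

theorem main (K : Type*) [Field K] {R : Type u} [CommRing R] [IsDomain R] [IsLocalRing R]
    [IsNoetherianRing R] [Algebra R K] [IsFractionRing R K]
    (hdim : ringKrullDim R = 1)
    (hmin : ∃ x ∈ maximalIdeal R, maximalIdeal R ^ 2 = Ideal.span {x} * maximalIdeal R)
    (ω : Type v) [AddCommGroup ω] [Module R ω] (hω : IsCanonical R ω)
    (I : Ideal R) (hI : I ≠ ⊥) (ht : TorsionFree R (I ⊗[R] (I →ₗ[R] ω))) :
    Nonempty (I ≃ₗ[R] R) ∨ Nonempty (I ≃ₗ[R] ω) := by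
  have hinj := IsFractionRing.injective R K
  have hk1 : Ring.KrullDimLE 1 R := by
    rw [Ring.krullDimLE_iff, hdim]
    rfl
  have hmne : maximalIdeal R ≠ ⊥ := by
    intro h
    have hf : IsField R := IsLocalRing.isField_iff_maximalIdeal_eq.mpr h
    have := ringKrullDim_eq_zero_of_isField hf
    rw [hdim] at this
    exact one_ne_zero this
  obtain ⟨x, hxm, hxx⟩ := hmin
  have hx : x ≠ 0 := by
    rintro rfl
    apply hmne
    rw [Ideal.span_singleton_eq_bot.mpr rfl, Ideal.bot_mul] at hxx
    exact pow_eq_zero_iff (n := 2) (by norm_num) |>.mp hxx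
  have hx' : algebraMap R K x ≠ 0 := (map_ne_zero_iff _ hinj).mpr hx
  obtain ⟨ι, hι⟩ := hω.exists_emb (K := K)
  have hfin : Module.Finite R ω := hω.finite
  have hW : Fr (LinearMap.range ι) := by
    constructor
    · obtain ⟨w, hw⟩ := hω.exists_ne
      intro h
      have : ι w ∈ LinearMap.range ι := ⟨w, rfl⟩
      rw [h, Submodule.mem_bot] at this
      exact hw (hι (by rw [this, map_zero]))
    · rw [LinearMap.range_eq_map]
      exact Submodule.FG.map _ Module.Finite.fg_top
  have hr := bidual_all hω ι hι hW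
  set W := LinearMap.range ι with hWdef
  set I' : Submodule R K := Submodule.map (Algebra.linearMap R K) I with hI'
  obtain ⟨e, he⟩ : ∃ e : (W / I' : Submodule R K) ≃ₗ[R] (I →ₗ[R] ω),
    ∀ y (i : I), ι (e y i) = y * algebraMap R K i := hom_equiv I hI ι hι
  have hI'fr : Fr I' := by
    constructor
    · obtain ⟨i₀, hi₀, hi₀ne⟩ := Submodule.exists_mem_ne_zero_of_ne_bot hI
      intro h
      have h1 : algebraMap R K i₀ ∈ I' := ⟨i₀, hi₀, rfl⟩
      rw [h, Submodule.mem_bot] at h1
      exact (map_ne_zero_iff _ hinj).mpr hi₀ne h1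
    · exact Submodule.FG.map _ (IsNoetherian.noetherian I)
  let eI : I ≃ₗ[R] I' := Submodule.equivMapOfInjective (Algebra.linearMap R K) hinj I
  let eT : (I' ⊗[R] (W / I' : Submodule R K)) ≃ₗ[R] (I ⊗[R] (I →ₗ[R] ω)) :=
    TensorProduct.congr eI.symm e
  have htf : ∀ (r : R) (t : I' ⊗[R] (W / I' : Submodule R K)), r ≠ 0 → r • t = 0 → t = 0 := by
    intro r t hr0 hrt
    by_contra ht0
    refine ht r (eT t) hr0 ?_ ?_
    · intro h
      apply ht0
      exact eT.injective (by rw [h, map_zero])
    · rw [← map_smul, hrt, map_zero]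
  obtain ⟨em⟩ := tensor_equiv hI'fr htf
  have hmu : mu R (I' * (W / I') : Submodule R K) = mu R I' * mu R (W / I' : Submodule R K) := by
    have hmu1 : mu R (I' ⊗[R] (W / I' : Submodule R K)) =
      mu R (I' * (W / I') : Submodule R K) := mu_congr em
    rw [← hmu1, mu_tensor]
  have hJfr := hW.div hI'fr
  have hprod : len (mK R K * (I' * (W / I'))) (I' * (W / I')) =
      len (mK R K * I') I' * len (mK R K * (W / I')) (W / I') := by
    rw [← mu_len (hI'fr.mul hJfr).2, ← mu_len hI'fr.2, ← mu_len hJfr.2, hmu]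
    push_cast
    rfl
  have hm1 : mK R K ≤ 1 := by
    rintro _ ⟨r, hr, rfl⟩
    exact Submodule.mem_one.mpr ⟨r, rfl⟩
  have hxm' : algebraMap R K x ∈ mK R K := ⟨x, hxm, rfl⟩
  have hmm : mK R K * mK R K = sc (algebraMap R K x) (mK R K) := by
    apply le_antisymm
    · rw [Submodule.mul_le]
      rintro _ ⟨r, hr, rfl⟩ _ ⟨s, hs, rfl⟩
      have h1 : r * s ∈ maximalIdeal R ^ 2 := by
        rw [pow_two]
        exact Ideal.mul_mem_mul hr hs
      rw [hxx, Ideal.mem_span_singleton_mul] at h1
      obtain ⟨z, hz, hzz⟩ := h1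
      rw [Algebra.linearMap_apply, Algebra.linearMap_apply, ← map_mul, ← hzz, map_mul]
      exact mul_mem_sc ⟨z, hz, rfl⟩
    · exact mul_le_mul' ((Submodule.span_singleton_le_iff_mem _ _).mpr hxm') le_rfl
  have he0 : len (sc (algebraMap R K x) 1) (1 : Submodule R K) ≠ 0 := by
    intro h
    have hle : sc (algebraMap R K x) (1 : Submodule R K) ≤ 1 := by
      intro y hy
      rw [mem_sc hx'] at hy
      obtain ⟨r, hr⟩ := Submodule.mem_one.mp hy
      refine Submodule.mem_one.mpr ⟨x * r, ?_⟩
      rw [map_mul, hr]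
      field_simp
    have h1 := len_eq_zero hle h
    have h2 : (1 : K) ∈ sc (algebraMap R K x) (1 : Submodule R K) := by
      rw [h1]
      exact Submodule.mem_one.mpr ⟨1, map_one _⟩
    rw [mem_sc hx'] at h2
    obtain ⟨r, hr⟩ := Submodule.mem_one.mp h2
    have h3 : x * r = 1 := by
      apply hinj
      rw [map_mul, hr, map_one]
      field_simp
    exact (IsLocalRing.mem_maximalIdeal x).mp hxm (IsUnit.of_mul_eq_one r h3)
  rcases core hx hm1 hxm' hmm he0 hW hr hI'fr hprod with h | h
  · left
    have h1 : mu R I' = 1 := by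
      rw [← mu_len hI'fr.2] at h
      exact_mod_cast h
    obtain ⟨c, hc, hIc⟩ := mu_eq_one hI'fr.2 h1
    have h2 : I' = sc c 1 := by
      rw [hIc]
      unfold sc
      rw [mul_one]
    obtain ⟨e2⟩ := sc_equiv (R := R) (K := K) 1 hc
    have e3 : R ≃ₗ[R] (1 : Submodule R K) :=
      (LinearEquiv.ofInjective (Algebra.linearMap R K) hinj).trans
        (LinearEquiv.ofEq _ _ Submodule.one_eq_range.symm)
    exact ⟨eI.trans ((LinearEquiv.ofEq _ _ h2).trans (e2.trans e3.symm))⟩
  · right
    have h1 : mu R (W / I' : Submodule R K) = 1 := by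
      rw [← mu_len hJfr.2] at h
      exact_mod_cast h
    obtain ⟨c, hc, hJc⟩ := mu_eq_one hJfr.2 h1
    have h2 : I' = sc c⁻¹ W := by
      rw [← hr I' hI'fr, hJc, div_eq_sc hc]
    obtain ⟨e2⟩ := sc_equiv (R := R) (K := K) W (inv_ne_zero hc)
    exact ⟨eI.trans ((LinearEquiv.ofEq _ _ h2).trans
      (e2.trans (LinearEquiv.ofInjective ι hι).symm))⟩

theorem result {R : Type u} [CommRing R] [IsDomain R] [IsLocalRing R] [IsNoetherianRing R]
    (hdim : ringKrullDim R = 1)
    (hmin : ∃ x ∈ maximalIdeal R, maximalIdeal R ^ 2 = Ideal.span {x} * maximalIdeal R)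
    (ω : Type v) [AddCommGroup ω] [Module R ω] (hω : IsCanonical R ω)
    (I : Ideal R) (hI : I ≠ ⊥) (ht : TorsionFree R (I ⊗[R] (I →ₗ[R] ω))) :
    Nonempty (I ≃ₗ[R] R) ∨ Nonempty (I ≃ₗ[R] ω) :=
  main (FractionRing R) hdim hmin ω hω I hI ht

end Final

end Pool.Agent.Results.MP_9a1833_al.MinimalMultiplicity
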